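import Mathlib
import Pool.Agent.Q182.TW5
import Pool.Agent.Y331.PH.Metric

/-!
# A fibered holomorphic partially hyperbolic diffeomorphism of a compact complex fourfold whose
# center distribution is not holomorphic

Let `ρ > 1` be the real root of `X³ = X + 1` and `λ`, `conj λ` its nonreal roots (`|λ| < 1`), and let
`Λ ⊂ ℂ³` be the lattice of the vectors `(a(ρ), a(λ), a(conj λ))`, where `a` runs over the polynomials
with Gaussian integer coefficients; it is invariant under `A = diag (ρ, λ, conj λ)`. A vector
`k = (k₀, k₁, k₂) ∈ ℂ³` defines the section `[X : Y] ↦ (k₀, k₁ X + conj k₂ Y, k₂ X - conj k₁ Y)` of the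
bundle `O ⊕ O(1) ⊕ O(1)` over the projective line, and there is exactly one such section through
every point of the total space. The quotient `M` of the total space by the translations by the
sections with parameters in `Λ` is a compact complex manifold of dimension four, diffeomorphic to
`(ℂ³ / Λ) × P¹` (a twistor family of complex structures on the torus `ℂ³ / Λ`). The matrix `A` acts on
the fibres of the bundle and maps the section with parameter `k` to the one with parameter `A k`, so it
induces a biholomorphism `f` of `M`, which is partially hyperbolic: the unstable distribution is the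
direction of the first coordinate, the stable distribution that of the last two coordinates, and
the center distribution is tangent to the sections, which are the fibres of `M → ℂ³ / Λ`. It is not
holomorphic near any point.
-/

set_option autoImplicit false

open scoped Manifold ContDiff Topology
open Set

namespace Pool.Agent.Results.MP_5114ef_an.FourfoldCenter

/-- A complex manifold modelled on the complex vector space `E`: the coordinate changes between its
charts, with values in `E`, are holomorphic. -/
structure ComplexManifold (E : Type) [NormedAddCommGroup E] [NormedSpace ℂ E] where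
  /-- the points -/
  pt : Type
  /-- the topology -/
  top : TopologicalSpace pt
  /-- the charts -/
  charts : ChartedSpace E pt
  /-- the coordinate changes are holomorphic -/
  holo : IsManifold 𝓘(ℂ, E) ω pt

namespace ComplexManifold

variable {E : Type} [NormedAddCommGroup E] [NormedSpace ℂ E] (M : ComplexManifold E)

instance : TopologicalSpace M.pt := M.top

instance : ChartedSpace E M.pt := M.charts

instance : IsManifold 𝓘(ℂ, E) ω M.pt := M.holo

instance : IsManifold 𝓘(ℂ, E) 1 M.pt := IsManifold.of_le (n := ω) le_top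

/-- The real analytic manifold underlying a complex manifold: the charts are the same, with `E`
regarded as a real vector space. -/
instance realAnalytic : IsManifold 𝓘(ℝ, E) ω M.pt := Y331.PH.isManifold_real M.pt

instance : IsManifold 𝓘(ℝ, E) ∞ M.pt := IsManifold.of_le (n := ω) le_top

instance : IsManifold 𝓘(ℝ, E) 1 M.pt := IsManifold.of_le (n := ω) le_top

/-- A biholomorphism of `M`. -/
abbrev Biholomorphism : Type := Diffeomorph 𝓘(ℂ, E) 𝓘(ℂ, E) M.pt M.pt ω

/-- The derivative of `f` at `x`, as a real linear map. As everywhere in Mathlib, the tangent space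
at a point is the model space `E`, through the preferred chart at the point. -/
noncomputable def D (f : M.pt → M.pt) (x : M.pt) : E →ₗ[ℝ] E :=
  (mfderiv 𝓘(ℝ, E) 𝓘(ℝ, E) f x).toLinearMap

/-- The tangent vector of the vector field `V` at `x`, as a point of the tangent bundle of the
underlying real manifold. -/
def vec (V : M.pt → E) (x : M.pt) : TangentBundle 𝓘(ℝ, E) M.pt := ⟨x, V x⟩

/-- The tangent vector of the vector field `V` at `x`, as a point of the holomorphic tangent
bundle. -/
def holVec (V : M.pt → E) (x : M.pt) : TangentBundle 𝓘(ℂ, E) M.pt := ⟨x, V x⟩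

/-- A field of real subspaces of the tangent spaces is a continuous distribution: near every point
it has a basis of continuous vector fields. -/
def IsContinuousDistribution (A : M.pt → Submodule ℝ E) : Prop :=
  ∀ x₀ : M.pt, ∃ U : Set M.pt, IsOpen U ∧ x₀ ∈ U ∧ ∃ (k : ℕ) (V : Fin k → M.pt → E),
    (∀ i, ContinuousOn (M.vec (V i)) U) ∧
      ∀ x ∈ U, LinearIndependent ℝ (fun i => V i x) ∧ A x = Submodule.span ℝ (range fun i => V i x)

/-- Near the point `x₀` the field `A` of real subspaces of the tangent spaces is spanned, over the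
complex numbers, by holomorphic (that is, complex differentiable) vector fields. -/
def IsHolomorphicNear (A : M.pt → Submodule ℝ E) (x₀ : M.pt) : Prop :=
  ∃ U : Set M.pt, IsOpen U ∧ x₀ ∈ U ∧ ∃ (k : ℕ) (V : Fin k → M.pt → E),
    (∀ i, MDifferentiableOn 𝓘(ℂ, E) 𝓘(ℂ, E).tangent (M.holVec (V i)) U) ∧
      ∀ x ∈ U, A x = (Submodule.span ℂ (range fun i => V i x)).restrictScalars ℝ

/-- A Riemannian metric on the underlying real manifold: a scalar product on every tangent space,
such that the squared length is a continuous function on the tangent bundle. -/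
structure Metric where
  /-- the scalar product -/
  inner : M.pt → E →ₗ[ℝ] E →ₗ[ℝ] ℝ
  symm : ∀ x v w, inner x v w = inner x w v
  pos : ∀ x v, v ≠ 0 → 0 < inner x v v
  continuous : Continuous fun v : TangentBundle 𝓘(ℝ, E) M.pt => inner v.1 v.2 v.2

/-- The Riemannian metric is smooth. -/
def Metric.IsSmooth {M : ComplexManifold E} (g : M.Metric) : Prop :=
  ContMDiff 𝓘(ℝ, E).tangent 𝓘(ℝ, ℝ) ∞ fun v : TangentBundle 𝓘(ℝ, E) M.pt => g.inner v.1 v.2 v.2

/-- The length of the tangent vector `v` at `x`. -/
noncomputable def Metric.len {M : ComplexManifold E} (g : M.Metric) (x : M.pt) (v : E) : ℝ :=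
  √(g.inner x v v)

/-- `TM = Es ⊕ Ec ⊕ Eu`, and the three subspaces are nonzero at every point. -/
def IsSplitting (Es Ec Eu : M.pt → Submodule ℝ E) : Prop :=
  ∀ x, (Es x ≠ ⊥ ∧ Ec x ≠ ⊥ ∧ Eu x ≠ ⊥) ∧ ∀ v, ∃! w : E × E × E,
    w.1 ∈ Es x ∧ w.2.1 ∈ Ec x ∧ w.2.2 ∈ Eu x ∧ w.1 + w.2.1 + w.2.2 = v

/-- The distribution `A` is invariant under the derivative of `f`. -/
def IsInvariant (f : M.pt → M.pt) (A : M.pt → Submodule ℝ E) : Prop :=
  ∀ x, (A x).map (M.D f x) = A (f x)

/-- For some `N ≥ 1` and all unit vectors `vs ∈ Es`, `vc ∈ Ec`, `vu ∈ Eu` at the same point,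
`‖Df^N vs‖ < min (1, ‖Df^N vc‖)` and `max (1, ‖Df^N vc‖) < ‖Df^N vu‖`. -/
def IsDominated (g : M.Metric) (f : M.pt → M.pt) (Es Ec Eu : M.pt → Submodule ℝ E) : Prop :=
  ∃ N : ℕ, 1 ≤ N ∧ ∀ x, ∀ vs ∈ Es x, ∀ vc ∈ Ec x, ∀ vu ∈ Eu x,
    g.len x vs = 1 → g.len x vc = 1 → g.len x vu = 1 →
      g.len (f^[N] x) (M.D f^[N] x vs) < min 1 (g.len (f^[N] x) (M.D f^[N] x vc)) ∧
      max 1 (g.len (f^[N] x) (M.D f^[N] x vc)) < g.len (f^[N] x) (M.D f^[N] x vu)

/-- `TM = Es ⊕ Ec ⊕ Eu` is a partially hyperbolic splitting of `f` with respect to the Riemannian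
metric `g`: the three distributions are nonzero, continuous, invariant and dominated. -/
structure IsPartiallyHyperbolic (g : M.Metric) (f : M.pt → M.pt)
    (Es Ec Eu : M.pt → Submodule ℝ E) : Prop where
  splitting : M.IsSplitting Es Ec Eu
  continuous : M.IsContinuousDistribution Es ∧ M.IsContinuousDistribution Ec ∧
    M.IsContinuousDistribution Eu
  invariant : M.IsInvariant f Es ∧ M.IsInvariant f Ec ∧ M.IsInvariant f Eu
  dominated : M.IsDominated g f Es Ec Eu

/-- The distribution `A` is tangent to the fibres of a fibration: there are a compact smooth manifold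
`B` and a surjective submersion `π : M → B` of class `C^∞` with connected fibres such that `A` is
the kernel of the derivative of `π`. (So `A` is tangent to the foliation of `M` by the fibres of `π`,
its leaves are compact and `B` is its leaf space.) -/
def IsFibered (A : M.pt → Submodule ℝ E) : Prop :=
  ∃ (F : Type) (_ : NormedAddCommGroup F) (_ : NormedSpace ℝ F) (B : Type) (_ : TopologicalSpace B)
    (_ : ChartedSpace F B) (π : M.pt → B),
    FiniteDimensional ℝ F ∧ IsManifold 𝓘(ℝ, F) ∞ B ∧ CompactSpace B ∧ T2Space B ∧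
    ContMDiff 𝓘(ℝ, E) 𝓘(ℝ, F) ∞ π ∧ Function.Surjective π ∧
    (∀ b : B, IsConnected (π ⁻¹' {b})) ∧
    ∀ x : M.pt, Function.Surjective (mfderiv 𝓘(ℝ, E) 𝓘(ℝ, F) π x) ∧
      ∀ v : E, v ∈ A x ↔ mfderiv 𝓘(ℝ, E) 𝓘(ℝ, F) π x v = 0

end ComplexManifold

open Q182.TW
open Y331.PH (Et exists_metric contMDiff_sq)

/-- The manifold of the example. -/
noncomputable def example₀ : ComplexManifold EE :=
  ⟨Q182.TW.SS.Pt, inferInstance, inferInstance, inferInstance⟩

/-- the metric as a metric of the quotient. -/
noncomputable def toMet (g : example₀.Metric) : Q182.TW.SS.Met where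
  sq q v := g.inner q v v
  smul q r v := by
    have h : ((r : ℂ) • v : EE) = (@HSMul.hSMul ℝ EE EE
      (@instHSMul ℝ EE (NormedSpace.complexToReal (E := EE)).toModule.toSMul) r v) :=
      Complex.coe_smul r v
    have h2 : g.inner q ((r : ℂ) • v) ((r : ℂ) • v) = r ^ 2 * g.inner q v v := by
      rw [h, map_smul, map_smul, LinearMap.smul_apply]
      simp only [smul_eq_mul]
      ring
    exact h2
  pos q v hv := g.pos q v hv
  cont := g.continuous

theorem ne_bot_fld {A : EE → Submodule ℂ EE} (x : Q182.TW.SS.Pt)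
    (hA : ∃ w ∈ A (chartAt EE x x), w ≠ 0) : Q182.TW.SS.fld A x ≠ ⊥ := by
  obtain ⟨w, hw, hw0⟩ := hA
  exact (Submodule.ne_bot_iff _).2 ⟨w, hw, hw0⟩

theorem partiallyHyperbolic (g : example₀.Metric) : example₀.IsPartiallyHyperbolic g
    (Et.map Q182.TW.FF Q182.TW.nor_F) (Q182.TW.SS.fld Vs) (Q182.TW.SS.fld Cen)
    (Q182.TW.SS.fld Vu) where
  splitting x := by
    refine ⟨⟨ne_bot_fld x ⟨(0, ![0, 1, 0]), ⟨rfl, rfl⟩, fun h => ?_⟩,
      ne_bot_fld x ⟨(1, Sd (chartAt EE x x).1 (al (chartAt EE x x))), mem_Cen.2 (one_smul ℂ _).symm,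
        fun h => one_ne_zero (congrArg Prod.fst h)⟩,
      ne_bot_fld x ⟨(0, ![1, 0, 0]), ⟨rfl, rfl, rfl⟩, fun h => ?_⟩⟩,
      fun v => Q182.TW.splitting (chartAt EE x x) v⟩
    · exact one_ne_zero (congrFun (congrArg Prod.snd h) 1)
    · exact one_ne_zero (congrFun (congrArg Prod.snd h) 0)
  continuous := ⟨continuous_Vs, continuous_Cen, continuous_Vu⟩
  invariant := by
    refine ⟨fun x => ?_, fun x => ?_, fun x => ?_⟩
    · exact Et.map_fld Q182.TW.FF Q182.TW.GG Q182.TW.nor_F Q182.TW.FG inv_Vs
        (fun b _ w => mF_Vs w) x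
    · exact Et.map_fld Q182.TW.FF Q182.TW.GG Q182.TW.nor_F Q182.TW.FG inv_Cen
        (fun b hb w => mF_Cen hb w) x
    · exact Et.map_fld Q182.TW.FF Q182.TW.GG Q182.TW.nor_F Q182.TW.FG inv_Vu
        (fun b _ w => mF_Vu w) x
  dominated := by
    obtain ⟨N, hN, h⟩ := Q182.TW.dominated (toMet g)
    exact ⟨N, hN, fun x vs hs vc hc vu hu h1 h2 h3 => h x vs vc vu hs hc hu h1 h2 h3⟩

theorem exists_smooth {E : Type} [NormedAddCommGroup E] [NormedSpace ℂ E] [FiniteDimensional ℂ E]
    (M : ComplexManifold E) [CompactSpace M.pt] [T2Space M.pt] : ∃ g : M.Metric, g.IsSmooth := by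
  have : FiniteDimensional ℝ E := FiniteDimensional.complexToReal E
  obtain ⟨g⟩ := exists_metric (E := E) M.pt
  have h := contMDiff_sq M.pt g
  let ib : M.pt → E →ₗ[ℝ] E →ₗ[ℝ] ℝ := fun x =>
    (ContinuousLinearMap.coeLM ℝ).comp (show E →L[ℝ] E →L[ℝ] ℝ from g.inner x).toLinearMap
  exact ⟨⟨ib, fun x v w => g.symm x v w, fun x v hv => g.pos x v hv, h.continuous⟩, h⟩

theorem fibered : example₀.IsFibered (Q182.TW.SS.fld Cen) := by
  refine ⟨V3, inferInstance, inferInstance, TB.Pt, inferInstance, inferInstance, proj,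
    inferInstance, IsManifold.of_le (n := ω) le_top, compactSpace_TB, inferInstance,
    contMDiff_proj.of_le le_top, proj_surj, proj_conn, fun x => ⟨mfderiv_proj_surj x, fun v => ?_⟩⟩
  exact (mfderiv_proj_ker x v).symm

/-- **A fibered holomorphic partially hyperbolic diffeomorphism of a compact complex fourfold whose
center distribution is not holomorphic.** There are a compact connected complex manifold `M` of
dimension four, a biholomorphism `f` of `M` and a splitting `TM = Es ⊕ Ec ⊕ Eu` that is a partially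
hyperbolic splitting of `f` for every Riemannian metric on `M`, such that `Ec` is tangent to the
fibres of a fibration of `M` with compact connected fibres over a compact manifold, and such that
`Ec` is not holomorphic near any point of `M`. -/
theorem result : ∃ (E : Type) (_ : NormedAddCommGroup E) (_ : NormedSpace ℂ E)
    (M : ComplexManifold E), Module.finrank ℂ E = 4 ∧ CompactSpace M.pt ∧ T2Space M.pt ∧
      ConnectedSpace M.pt ∧ SecondCountableTopology M.pt ∧ (∃ g : M.Metric, g.IsSmooth) ∧
      ∃ (f : M.Biholomorphism) (Es Ec Eu : M.pt → Submodule ℝ E),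
        (∀ g : M.Metric, M.IsPartiallyHyperbolic g f Es Ec Eu) ∧ M.IsFibered Ec ∧
          ∀ x₀ : M.pt, ¬ M.IsHolomorphicNear Ec x₀ := by
  have hc : CompactSpace example₀.pt := Q182.TW.compactSpace_SS
  have ht : T2Space example₀.pt := (inferInstance : T2Space Q182.TW.SS.Pt)
  refine ⟨EE, inferInstance, inferInstance, example₀, ?_, hc, ht, Q182.TW.connectedSpace_SS, ?_,
    exists_smooth example₀,
    Et.diffeo Q182.TW.FF Q182.TW.GG Q182.TW.nor_F Q182.TW.nor_G Q182.TW.GF Q182.TW.FG,
    Q182.TW.SS.fld Vs, Q182.TW.SS.fld Cen, Q182.TW.SS.fld Vu, partiallyHyperbolic, fibered, ?_⟩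
  · simp [Module.finrank_prod]
  · exact ChartedSpace.secondCountable_of_sigmaCompact EE example₀.pt
  · rintro x₀ ⟨O, hO, hxO, k, V, hV, hspan⟩
    exact Q182.TW.not_holomorphic hO hxO hV hspan

end Pool.Agent.Results.MP_5114ef_an.FourfoldCenter
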